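import Mathlib

set_option autoImplicit false
set_option linter.unusedSectionVars false

namespace Pool.Agent.H.MP_9105af_an

open scoped InnerProductSpace
open InnerProductSpace Filter Topology

variable {H : Type} [NormedAddCommGroup H] [InnerProductSpace ℂ H] [CompleteSpace H]

def IsDiag (b : HilbertBasis ℕ ℂ H) (T : H →L[ℂ] H) (c : ℕ → ℂ) : Prop :=
  ∀ x k, ⟪b k, T x⟫_ℂ = c k * ⟪b k, x⟫_ℂ

lemma inner_b (b : HilbertBasis ℕ ℂ H) (i j : ℕ) :
    ⟪b i, b j⟫_ℂ = if i = j then 1 else 0 := (orthonormal_iff_ite.1 b.orthonormal) i j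

lemma ext_b (b : HilbertBasis ℕ ℂ H) {x y : H} (h : ∀ k, ⟪b k, x⟫_ℂ = ⟪b k, y⟫_ℂ) : x = y := by
  apply b.repr.injective
  ext i
  rw [b.repr_apply_apply, b.repr_apply_apply, h]

lemma exists_diag (b : HilbertBasis ℕ ℂ H) (c : ℕ → ℂ) (K : ℝ) (hK : 0 ≤ K) (h : ∀ k, ‖c k‖ ≤ K) :
    ∃ T : H →L[ℂ] H, ‖T‖ ≤ K ∧ IsDiag b T c := by
  have h' : ∀ k, ‖c k • ContinuousLinearMap.id ℂ ℂ‖ ≤ K := fun k => by
    rw [norm_smul, ContinuousLinearMap.norm_id, mul_one]; exact h k
  let M := lp.mapCLM (E := fun _ : ℕ => ℂ) (F := fun _ : ℕ => ℂ) 2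
    (fun k => c k • ContinuousLinearMap.id ℂ ℂ) hK h'
  refine ⟨(b.repr.symm.toContinuousLinearEquiv : _ →L[ℂ] _) ∘L M ∘L
    (b.repr.toContinuousLinearEquiv : _ →L[ℂ] _), ?_, ?_⟩
  · apply ContinuousLinearMap.opNorm_le_bound _ hK
    intro x
    have := M.le_of_opNorm_le (lp.norm_mapCLM_le 2 _ hK h') (b.repr x)
    simpa using this
  · intro x k
    rw [← b.repr_apply_apply, ← b.repr_apply_apply]
    simp [M]

variable {b : HilbertBasis ℕ ℂ H}

lemma IsDiag.unique {S T : H →L[ℂ] H} {c d : ℕ → ℂ} (hS : IsDiag b S c) (hT : IsDiag b T d)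
    (h : ∀ k, c k = d k) : S = T := by
  ext x
  exact ext_b b fun k => by rw [hS, hT, h]

lemma IsDiag.norm_le {T : H →L[ℂ] H} {c : ℕ → ℂ} (hT : IsDiag b T c) {K : ℝ} (hK : 0 ≤ K)
    (h : ∀ k, ‖c k‖ ≤ K) : ‖T‖ ≤ K := by
  obtain ⟨S, h1, h2⟩ := exists_diag b c K hK h
  rwa [hT.unique h2 fun _ => rfl]

lemma IsDiag.mul {S T : H →L[ℂ] H} {c d : ℕ → ℂ} (hS : IsDiag b S c) (hT : IsDiag b T d) :
    IsDiag b (S * T) (fun k => c k * d k) := fun x k => by
  rw [mul_apply_eq_comp, hS, hT, mul_assoc]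

lemma IsDiag.sub {S T : H →L[ℂ] H} {c d : ℕ → ℂ} (hS : IsDiag b S c) (hT : IsDiag b T d) :
    IsDiag b (S - T) (fun k => c k - d k) := fun x k => by
  rw [_root_.sub_apply, inner_sub_right, hS, hT, sub_mul]

lemma IsDiag.comm {S T : H →L[ℂ] H} {c d : ℕ → ℂ} (hS : IsDiag b S c) (hT : IsDiag b T d) :
    S * T = T * S := (hS.mul hT).unique (hT.mul hS) fun _ => mul_comm _ _

lemma IsDiag.apply_b {T : H →L[ℂ] H} {c : ℕ → ℂ} (hT : IsDiag b T c) (k : ℕ) :
    T (b k) = c k • b k := by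
  refine ext_b b fun j => ?_
  rw [hT, inner_smul_right, inner_b]
  split_ifs with h
  · rw [h]
  · simp

lemma IsDiag.star {T : H →L[ℂ] H} {c : ℕ → ℂ} (hT : IsDiag b T c) :
    IsDiag b (star T) (fun k => starRingEnd ℂ (c k)) := fun x k => by
  rw [ContinuousLinearMap.star_eq_adjoint, ContinuousLinearMap.adjoint_inner_right, hT.apply_b,
    inner_smul_left]

lemma IsDiag.sa {T : H →L[ℂ] H} {c : ℕ → ℝ} (hT : IsDiag b T fun k => (c k : ℂ)) :
    IsSelfAdjoint T := hT.star.unique hT fun _ => Complex.conj_ofReal _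

lemma IsDiag.nonneg {T : H →L[ℂ] H} {c : ℕ → ℝ} (hT : IsDiag b T fun k => (c k : ℂ))
    (h0 : ∀ k, 0 ≤ c k) (h1 : ∀ k, c k ≤ 1) : 0 ≤ T := by
  obtain ⟨S, -, hS⟩ := exists_diag b (fun k => (√(c k) : ℝ)) 1 zero_le_one fun k => by
    rw [Complex.norm_real, Real.norm_eq_abs, abs_of_nonneg (Real.sqrt_nonneg _)]
    exact Real.sqrt_le_one.2 (h1 k)
  have : T = Star.star S * S := hT.unique (hS.star.mul hS) fun k => by
    rw [Complex.conj_ofReal, ← Complex.ofReal_mul, Real.mul_self_sqrt (h0 k)]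
  rw [this]
  exact star_mul_self_nonneg S

noncomputable def trunc (b : HilbertBasis ℕ ℂ H) (c : ℕ → ℂ) (s : Finset ℕ) : H →L[ℂ] H :=
  ∑ j ∈ s, c j • rankOne ℂ (b j) (b j)

lemma trunc_apply (c : ℕ → ℂ) (s : Finset ℕ) (x : H) :
    trunc b c s x = ∑ j ∈ s, (c j * ⟪b j, x⟫_ℂ) • b j := by
  simp [trunc, _root_.sum_apply, rankOne_apply, smul_smul]

lemma trunc_diag (c : ℕ → ℂ) (s : Finset ℕ) :
    IsDiag b (trunc b c s) (fun k => if k ∈ s then c k else 0) := fun x k => by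
  rw [trunc_apply, inner_sum]
  simp only [inner_smul_right, inner_b, mul_ite, mul_one, mul_zero, Finset.sum_ite_eq]
  split_ifs <;> simp

lemma trunc_rank (c : ℕ → ℂ) (s : Finset ℕ) :
    LinearMap.rank (trunc b c s : H →ₗ[ℂ] H) ≤ s.card := by
  classical
  have h : LinearMap.range (trunc b c s : H →ₗ[ℂ] H) ≤ Submodule.span ℂ (s.image b : Set H) := by
    rintro _ ⟨x, rfl⟩
    change trunc b c s x ∈ _
    rw [trunc_apply]
    exact Submodule.sum_mem _ fun j hj => Submodule.smul_mem _ _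
      (Submodule.subset_span (by simpa using ⟨j, hj, rfl⟩))
  refine (Submodule.rank_mono h).trans ((rank_span_finset_le _).trans ?_)
  exact_mod_cast Finset.card_image_le

lemma trunc_compact (c : ℕ → ℂ) (s : Finset ℕ) : IsCompactOperator (trunc b c s) := by
  have : trunc b c s ∈ compactOperator (RingHom.id ℂ) H H := by
    refine Submodule.sum_mem _ fun j _ => Submodule.smul_mem _ _ ?_
    have h1 : IsCompactOperator (innerSL ℂ (b j)) := isCompactOperator_of_locallyCompactSpace_dom _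
    have h2 := h1.clm_comp (ContinuousLinearMap.toSpanSingleton ℂ (b j))
    change IsCompactOperator _
    convert h2 using 1
    ext x
    simp [rankOne_apply]
  exact this

lemma IsDiag.compact {T : H →L[ℂ] H} {c : ℕ → ℂ} (hT : IsDiag b T c)
    (h : ∀ k, ‖c k‖ ≤ 1 / ((k : ℝ) + 1)) : IsCompactOperator T := by
  apply isCompactOperator_of_tendsto (l := atTop) (F := fun n => trunc b c (Finset.range n))
  · rw [tendsto_iff_norm_sub_tendsto_zero]
    refine squeeze_zero (fun _ => norm_nonneg _) (fun n => ?_) tendsto_one_div_add_atTop_nhds_zero_nat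
    refine ((trunc_diag c _).sub hT).norm_le (by positivity) fun k => ?_
    split_ifs with hk
    · simp only [sub_self, norm_zero]; positivity
    · rw [zero_sub, norm_neg]
      refine (h k).trans (one_div_le_one_div_of_le (by positivity) ?_)
      have : n ≤ k := by simpa using hk
      have : (n : ℝ) ≤ k := by exact_mod_cast this
      linarith
  · exact Eventually.of_forall fun n => trunc_compact _ _

noncomputable def sn (T : H →L[ℂ] H) (k : ℕ) : ℝ :=
  sInf {t | ∃ F : H →L[ℂ] H, LinearMap.rank (F : H →ₗ[ℂ] H) ≤ k ∧ t = ‖T - F‖}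

lemma sn_nonneg (T : H →L[ℂ] H) (k : ℕ) : 0 ≤ sn T k :=
  Real.sInf_nonneg (by rintro _ ⟨F, -, rfl⟩; exact norm_nonneg _)

lemma IsDiag.sn_le {T : H →L[ℂ] H} {c : ℕ → ℂ} (hT : IsDiag b T c) (k : ℕ) (s : Finset ℕ)
    (hs : s.card ≤ k) {K : ℝ} (hK : 0 ≤ K) (h : ∀ j ∉ s, ‖c j‖ ≤ K) : sn T k ≤ K := by
  have h0 : sn T k ≤ ‖T - trunc b c s‖ := csInf_le ⟨0, by rintro _ ⟨F, -, rfl⟩; exact norm_nonneg _⟩
    ⟨trunc b c s, (trunc_rank c s).trans (by exact_mod_cast hs), rfl⟩
  refine h0.trans ?_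
  refine (hT.sub (trunc_diag c s)).norm_le hK fun j => ?_
  split_ifs with hj
  · simpa using hK
  · simpa using h j hj

lemma IsDiag.le_sn {T : H →L[ℂ] H} (hT : IsDiag b T fun k => ((1 / ((k : ℝ) + 1) : ℝ) : ℂ))
    (k : ℕ) : 1 / ((k : ℝ) + 1) ≤ sn T k := by
  refine le_csInf ⟨_, 0, by simp, rfl⟩ ?_
  rintro _ ⟨F, hF, rfl⟩
  let ψ : (Fin (k + 1) → ℂ) →ₗ[ℂ] H := Fintype.linearCombination ℂ fun j : Fin (k + 1) => b j
  have h1 : ¬ Function.Injective ((F : H →ₗ[ℂ] H) ∘ₗ ψ) := by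
    intro hi
    have h2 := rank_range_of_injective _ hi
    have h3 := (LinearMap.rank_comp_le_left ψ (F : H →ₗ[ℂ] H)).trans hF
    rw [LinearMap.rank, h2] at h3
    simp only [rank_fun', Fintype.card_fin] at h3
    have : k + 1 ≤ k := by exact_mod_cast h3
    omega
  rw [injective_iff_map_eq_zero] at h1
  push Not at h1
  obtain ⟨a, ha, ha0⟩ := h1
  have hc : ∀ j : ℕ, ⟪b j, ψ a⟫_ℂ = if h : j < k + 1 then a ⟨j, h⟩ else 0 := by
    intro j
    simp only [ψ, Fintype.linearCombination_apply, inner_sum, inner_smul_right, inner_b]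
    split_ifs with h
    · rw [Finset.sum_eq_single ⟨j, h⟩]
      · simp
      · intro i _ hi
        rw [if_neg, mul_zero]
        intro e; apply hi; ext; exact e.symm
      · simp
    · refine Finset.sum_eq_zero fun i _ => ?_
      rw [if_neg, mul_zero]
      intro e; apply h; rw [e]; exact i.2
  have hx : ψ a ≠ 0 := by
    intro h0
    apply ha0
    funext i
    have := hc i
    rw [h0, inner_zero_right, dif_pos i.2] at this
    exact this.symm
  obtain ⟨G, hG1, hG⟩ := exists_diag b (fun j => if j < k + 1 then (((j : ℝ) + 1 : ℝ) : ℂ) else 0)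
    ((k : ℝ) + 1) (by positivity) fun j => by
      split_ifs with h
      · rw [Complex.norm_real, Real.norm_eq_abs, abs_of_nonneg (by positivity)]
        have : (j : ℝ) ≤ k := by exact_mod_cast Nat.lt_succ_iff.1 h
        linarith
      · simp only [norm_zero]; positivity
  have h2 : G (T (ψ a)) = ψ a := by
    refine ext_b b fun j => ?_
    rw [hG, hT, hc]
    by_cases h : j < k + 1
    · simp only [h, if_true, dif_pos]
      rw [← mul_assoc, ← Complex.ofReal_mul, mul_one_div_cancel (by positivity)]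
      simp
    · simp [h]
  have h3 : (T - F) (ψ a) = T (ψ a) := by
    have : F (ψ a) = 0 := ha
    rw [_root_.sub_apply, this, sub_zero]
  have h4 : ‖ψ a‖ ≤ ((k : ℝ) + 1) * (‖T - F‖ * ‖ψ a‖) := by
    calc ‖ψ a‖ = ‖G ((T - F) (ψ a))‖ := by rw [h3, h2]
      _ ≤ ((k : ℝ) + 1) * ‖(T - F) (ψ a)‖ := G.le_of_opNorm_le hG1 _
      _ ≤ _ := by gcongr; exact (T - F).le_opNorm _
  have h5 : 0 < ‖ψ a‖ := norm_pos_iff.2 hx
  rw [div_le_iff₀ (by positivity)]
  nlinarith

lemma cfc_eig (R : H →L[ℂ] H) (hR : IsSelfAdjoint R) (x : H) (l : ℝ) (hx0 : x ≠ 0)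
    (hx : R x = (l : ℂ) • x) (f : ℝ → ℝ) (hf : ContinuousOn f (spectrum ℝ R)) :
    cfc f R x = (f l : ℂ) • x := by
  have hl : l ∈ spectrum ℝ R := by
    intro hu
    rw [spectrum.mem_resolventSet_iff] at hu
    obtain ⟨u, hu⟩ := hu
    have h1 : (algebraMap ℝ (H →L[ℂ] H) l - R) x = 0 := by
      rw [_root_.sub_apply, hx, Algebra.algebraMap_eq_smul_one]
      simp
    have h2 := congrArg (fun Y : H →L[ℂ] H => Y x) u.inv_mul
    simp only [mul_apply_eq_comp, hu, h1, map_zero, one_apply_eq_self] at h2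
    exact hx0 h2.symm
  rw [cfc_apply f R hR hf]
  have key : ∀ g : C(spectrum ℝ R, ℝ), cfcHom hR g x = (g ⟨l, hl⟩ : ℂ) • x := by
    intro g
    induction g using ContinuousMap.induction_on_of_compact with
    | const r =>
      have : ContinuousMap.const (spectrum ℝ R) r = algebraMap ℝ _ r := rfl
      rw [this, AlgHomClass.commutes, Algebra.algebraMap_eq_smul_one]
      simp
    | id => rw [cfcHom_id]; simpa using hx
    | star_id => rw [map_star, cfcHom_id, hR.star_eq]; simpa using hx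
    | add g h hg hh => rw [map_add, _root_.add_apply, hg, hh]; simp [add_smul]
    | mul g h hg hh => 
      rw [map_mul, mul_apply_eq_comp, hh, map_smul, hg, smul_smul, ContinuousMap.mul_apply,
        Complex.ofReal_mul, mul_comm]
    | frequently g hg =>
      have hc : IsClosed {g : C(spectrum ℝ R, ℝ) | cfcHom hR g x = (g ⟨l, hl⟩ : ℂ) • x} := by
        apply isClosed_eq
        · exact (continuous_eval_const x).comp (cfcHom_continuous hR)
        · exact (Complex.continuous_ofReal.comp (continuous_eval_const _)).smul continuous_const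
      exact hc.mem_of_frequently_of_tendsto hg tendsto_id
  exact key _

lemma norm_sqrt_apply (A : H →L[ℂ] H) (x : H) : ‖CFC.sqrt (star A * A) x‖ = ‖A x‖ := by
  have h0 : (0 : H →L[ℂ] H) ≤ star A * A := star_mul_self_nonneg A
  have h1 : CFC.sqrt (star A * A) * CFC.sqrt (star A * A) = star A * A :=
    CFC.sqrt_mul_sqrt_self _ h0
  have h2 : IsSelfAdjoint (CFC.sqrt (star A * A)) := (CFC.sqrt_nonneg _).isSelfAdjoint
  generalize CFC.sqrt (star A * A) = Q at h1 h2
  have h3 : ⟪Q x, Q x⟫_ℂ = ⟪A x, A x⟫_ℂ := by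
    rw [← ContinuousLinearMap.adjoint_inner_right, ← ContinuousLinearMap.adjoint_inner_right A,
      ← ContinuousLinearMap.star_eq_adjoint, ← ContinuousLinearMap.star_eq_adjoint, h2.star_eq,
      ← mul_apply_eq_comp, h1, mul_apply_eq_comp]
  rw [inner_self_eq_norm_sq_to_K, inner_self_eq_norm_sq_to_K] at h3
  have h4 : ‖Q x‖ ^ 2 = ‖A x‖ ^ 2 := by exact_mod_cast h3
  exact (pow_left_inj₀ (norm_nonneg _) (norm_nonneg _) two_ne_zero).1 h4

lemma trace_summable (A : H →L[ℂ] H) (h : Summable fun i => ‖A (b i)‖) :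
    Summable fun i => ⟪b i, CFC.sqrt (star A * A) (b i)⟫_ℂ := by
  refine Summable.of_norm_bounded h fun i => ?_
  rw [← norm_sqrt_apply]
  calc _ ≤ ‖b i‖ * ‖CFC.sqrt (star A * A) (b i)‖ := norm_inner_le_norm _ _
    _ = _ := by rw [b.orthonormal.1, one_mul]

end Pool.Agent.H.MP_9105af_an
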