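import Mathlib
import Pool.Agent.H.MP_9105af_an.A

set_option autoImplicit false
set_option linter.unusedSectionVars false

namespace Pool.Agent.H.MP_9105af_an

open scoped InnerProductSpace
open InnerProductSpace Filter Topology

variable {H : Type} [NormedAddCommGroup H] [InnerProductSpace ℂ H] [CompleteSpace H]
variable {b : HilbertBasis ℕ ℂ H}

noncomputable def r (k : ℕ) : ℝ := 1 / ((k : ℝ) + 1)
noncomputable def v (k : ℕ) : ℝ := √(1 - r k ^ 2)

lemma r_pos (k : ℕ) : 0 < r k := by unfold r; positivity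
lemma r_le (k : ℕ) : r k ≤ 1 := by
  unfold r
  rw [div_le_one (by positivity)]
  have : (0 : ℝ) ≤ k := by positivity
  linarith
lemma rv (k : ℕ) : r k * r k + v k * v k = 1 := by
  have := r_pos k
  have := r_le k
  rw [v, Real.mul_self_sqrt (by nlinarith)]; ring
lemma rvC (k : ℕ) : (r k : ℂ) * r k + v k * v k = 1 := by exact_mod_cast rv k
lemma v_le (k : ℕ) : ‖(v k : ℂ)‖ ≤ 1 := by
  rw [Complex.norm_real, Real.norm_eq_abs, abs_le]
  have := rv k
  constructor <;> nlinarith [mul_self_nonneg (r k), mul_self_nonneg (v k - 1), mul_self_nonneg (v k + 1)]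
lemma r_ne (k : ℕ) : (r k : ℂ) ≠ 0 := by exact_mod_cast (r_pos k).ne'

section D
variable {R V : H →L[ℂ] H} (hR : IsDiag b R fun k => (r k : ℂ)) (hV : IsDiag b V fun k => (v k : ℂ))
include hR

lemma R_inj : Function.Injective (R : H →ₗ[ℂ] H) := by
  intro x y h
  refine ext_b b fun k => ?_
  have h1 := hR x k
  have h2 := hR y k
  have h3 : R x = R y := h
  rw [h3, h2] at h1
  exact (mul_left_cancel₀ (r_ne k) h1).symm

include hV in
lemma exists_D : ∃ D : H →ₗ.[ℂ] H, IsSelfAdjoint D ∧ (∀ x, x ∈ D.domain ↔ ∃ y, R y = x) ∧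
    ∀ (y : H) (h : R y ∈ D.domain), D ⟨R y, h⟩ = V y := by
  let D : H →ₗ.[ℂ] H := ⟨LinearMap.range (R : H →ₗ[ℂ] H),
    (V : H →ₗ[ℂ] H) ∘ₗ (LinearEquiv.ofInjective (R : H →ₗ[ℂ] H) (R_inj hR)).symm.toLinearMap⟩
  have hdom : ∀ x, x ∈ D.domain ↔ ∃ y, R y = x := fun x => Iff.rfl
  have happ : ∀ (y : H) (h : R y ∈ D.domain), D ⟨R y, h⟩ = V y := by
    intro y h
    change V ((LinearEquiv.ofInjective (R : H →ₗ[ℂ] H) (R_inj hR)).symm ⟨R y, h⟩) = V y
    congr 1
    rw [LinearEquiv.symm_apply_eq]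
    rfl
  refine ⟨D, ?_, hdom, happ⟩
  clear_value D
  have hdense : Dense (D.domain : Set H) := by
    rw [Submodule.dense_iff_topologicalClosure_eq_top, eq_top_iff, ← b.dense_span]
    apply Submodule.topologicalClosure_mono
    rw [Submodule.span_le]
    rintro _ ⟨k, rfl⟩
    refine (hdom _).2 ⟨(r k : ℂ)⁻¹ • b k, ?_⟩
    rw [map_smul, hR.apply_b, smul_smul, inv_mul_cancel₀ (r_ne k), one_smul]
  have hRs := hR.sa
  have hVs := hV.sa
  have hf : D.IsFormalAdjoint D := by
    rintro ⟨x, hx⟩ ⟨y, hy⟩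
    obtain ⟨u, rfl⟩ := (hdom _).1 hx
    obtain ⟨w, rfl⟩ := (hdom _).1 hy
    rw [happ, happ]
    change ⟪V u, R w⟫_ℂ = ⟪R u, V w⟫_ℂ
    rw [← ContinuousLinearMap.adjoint_inner_right, ← ContinuousLinearMap.adjoint_inner_right R,
      ← ContinuousLinearMap.star_eq_adjoint, ← ContinuousLinearMap.star_eq_adjoint, hRs.star_eq,
      hVs.star_eq, ← mul_apply_eq_comp, hV.comm hR, mul_apply_eq_comp]
  have hle := hf.le_adjoint hdense
  rw [LinearPMap.isSelfAdjoint_def]
  refine (LinearPMap.eq_of_le_of_domain_eq hle (le_antisymm hle.1 fun y hy => ?_)).symm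
  have h1 := LinearPMap.adjoint_isFormalAdjoint hdense ⟨y, hy⟩
  obtain ⟨z, hz⟩ : ∃ z, z = D.adjoint ⟨y, hy⟩ := ⟨_, rfl⟩
  rw [← hz] at h1
  refine (hdom _).2 ⟨R y + V z, ext_b b fun k => ?_⟩
  have h2 := h1 ⟨R (b k), (hdom _).2 ⟨_, rfl⟩⟩
  rw [happ] at h2
  change ⟪z, R (b k)⟫_ℂ = ⟪y, V (b k)⟫_ℂ at h2
  rw [hR.apply_b, hV.apply_b, inner_smul_right, inner_smul_right] at h2
  have h3 := congrArg (starRingEnd ℂ) h2
  simp only [map_mul, Complex.conj_ofReal, inner_conj_symm] at h3
  rw [hR, inner_add_right, hR, hV]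
  linear_combination (v k : ℂ) * h3 + ⟪b k, y⟫_ℂ * rvC k

lemma not_trace {ι : Type} (c : HilbertBasis ι ℂ H) : ¬ Summable fun i => ⟪c i, R (c i)⟫_ℂ := by
  intro hs
  have hs' := (Complex.hasSum_re hs.hasSum)
  obtain ⟨M, hM⟩ : ∃ M, M = (∑' i, ⟪c i, R (c i)⟫_ℂ).re := ⟨_, rfl⟩
  rw [← hM] at hs'
  have h1 : ∀ N, ∑ k ∈ Finset.range N, r k ≤ M := by
    intro N
    have h2 : HasSum (fun i => ⟪c i, trunc b (fun k => (r k : ℂ)) (Finset.range N) (c i)⟫_ℂ)
        (∑ k ∈ Finset.range N, (r k : ℂ)) := by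
      simp only [trunc_apply, inner_sum, inner_smul_right]
      apply hasSum_sum
      intro k _
      have := (c.hasSum_inner_mul_inner (b k) (b k)).mul_left (r k : ℂ)
      rw [inner_b, if_pos rfl, mul_one] at this
      simpa only [mul_assoc] using this
    have h3 := Complex.hasSum_re h2
    rw [← Complex.ofReal_sum, Complex.ofReal_re] at h3
    refine hasSum_le (fun i => ?_) h3 hs'
    have h4 : IsDiag b (R - trunc b (fun k => (r k : ℂ)) (Finset.range N))
        fun k => ((if k ∈ Finset.range N then 0 else r k : ℝ) : ℂ) := by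
      have := hR.sub (trunc_diag (fun k => (r k : ℂ)) (Finset.range N))
      convert this using 2 with k
      split_ifs <;> simp
    have h5 := h4.nonneg (fun k => by split_ifs; exacts [le_rfl, (r_pos k).le])
      (fun k => by split_ifs; exacts [zero_le_one, r_le k])
    rw [ContinuousLinearMap.nonneg_iff_isPositive] at h5
    have h6 := h5.re_inner_nonneg_right (c i)
    rw [_root_.sub_apply, inner_sub_right, map_sub] at h6
    simpa using h6
  obtain ⟨N, hN⟩ := (Real.tendsto_sum_range_one_div_nat_succ_atTop.eventually_gt_atTop M).exists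
  exact absurd (h1 N) (not_le.2 hN)

lemma R_nonneg : 0 ≤ R := hR.nonneg (fun k => (r_pos k).le) r_le

lemma trace_rpow (p : ℝ) (hp : 1 < p) : Summable fun i => ‖(R ^ p) (b i)‖ := by
  have h : ∀ i, ‖(R ^ p) (b i)‖ = 1 / ((i : ℝ) + 1) ^ p := by
    intro i
    rw [CFC.rpow_eq_cfc_real (R_nonneg hR), cfc_eig R hR.sa (b i) (r i) (b.orthonormal.ne_zero i)
      (hR.apply_b i) _ (Real.continuous_rpow_const (by linarith)).continuousOn, norm_smul,
      b.orthonormal.1, mul_one, Complex.norm_real, Real.norm_eq_abs,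
      abs_of_nonneg (Real.rpow_nonneg (r_pos i).le _), r, Real.div_rpow zero_le_one (by positivity),
      Real.one_rpow]
  simp only [h]
  have := (summable_nat_add_iff 1).2 (Real.summable_one_div_nat_rpow.2 hp)
  simpa using this

lemma sn_R (k : ℕ) : sn R k = 1 / ((k : ℝ) + 1) := by
  refine le_antisymm ?_ (IsDiag.le_sn hR k)
  refine hR.sn_le k (Finset.range k) (by simp) (by positivity) fun j hj => ?_
  rw [Complex.norm_real, Real.norm_eq_abs, abs_of_pos (r_pos j), r]
  refine one_div_le_one_div_of_le (by positivity) ?_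
  have : k ≤ j := by simpa using hj
  have : (k : ℝ) ≤ j := by exact_mod_cast this
  linarith

end D

lemma log_top : Tendsto (fun N : ℕ => Real.log ((N : ℝ) + 2)) atTop atTop :=
  Real.tendsto_log_atTop.comp (tendsto_atTop_add_const_right _ _ tendsto_natCast_atTop_atTop)

lemma log_pos' (N : ℕ) : 0 < Real.log ((N : ℝ) + 2) :=
  Real.log_pos (by have : (0 : ℝ) ≤ N := by positivity
                   linarith)

lemma lim_one : Tendsto (fun N : ℕ => (∑ k ∈ Finset.range (N + 1), 1 / ((k : ℝ) + 1)) /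
    Real.log ((N : ℝ) + 2)) atTop (𝓝 1) := by
  have h0 : ∀ N : ℕ, ∑ k ∈ Finset.range (N + 1), 1 / ((k : ℝ) + 1) = (harmonic (N + 1) : ℝ) := by
    intro N
    simp [harmonic]
  have h1 : Tendsto (fun N : ℕ => 1 + (Real.log ((N : ℝ) + 2))⁻¹) atTop (𝓝 (1 + 0)) :=
    tendsto_const_nhds.add log_top.inv_tendsto_atTop
  rw [add_zero] at h1
  refine tendsto_of_tendsto_of_tendsto_of_le_of_le tendsto_const_nhds h1 (fun N => ?_) fun N => ?_
  · rw [h0, le_div_iff₀ (log_pos' N), one_mul]
    have := log_add_one_le_harmonic (N + 1)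
    push_cast at this
    rwa [add_assoc, one_add_one_eq_two] at this
  · have := harmonic_le_one_add_log (N + 1)
    have h2 : Real.log ((N + 1 : ℕ) : ℝ) ≤ Real.log ((N : ℝ) + 2) :=
      Real.log_le_log (by positivity) (by push_cast; linarith)
    simp only [h0]
    rw [div_le_iff₀ (log_pos' N), add_mul, inv_mul_cancel₀ (log_pos' N).ne']
    linarith

lemma lim_zero (s : ℕ → ℝ) (h0 : ∀ k, 0 ≤ s k) (h1 : ∀ k, s k ≤ 1 / ((k : ℝ) ^ 2 + 1)) :
    Tendsto (fun N : ℕ => (∑ k ∈ Finset.range (N + 1), s k) /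
    Real.log ((N : ℝ) + 2)) atTop (𝓝 0) := by
  have hs : Summable s := by
    rw [← summable_nat_add_iff 1]
    refine Summable.of_nonneg_of_le (fun _ => h0 _) (fun k => (h1 _).trans ?_)
      ((summable_nat_add_iff 1).2 (Real.summable_one_div_nat_pow.2 one_lt_two))
    exact one_div_le_one_div_of_le (by positivity) (by linarith)
  exact ((hs.hasSum.tendsto_sum_nat.comp (tendsto_add_atTop_nat 1))).div_atTop log_top

noncomputable def ind (i k : ℕ) : ℝ := if (Nat.unpair k).1 = i then 1 else 0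

lemma sn_P {T : H →L[ℂ] H} (i : ℕ) (hT : IsDiag b T fun k => (ind i k : ℂ) * r k) (k : ℕ) :
    sn T k ≤ 1 / ((k : ℝ) ^ 2 + 1) := by
  refine hT.sn_le k ((Finset.range k).image (Nat.pair i)) (Finset.card_image_le.trans (by simp))
    (by positivity) fun j hj => ?_
  unfold ind
  split_ifs with h
  · rw [Complex.ofReal_one, one_mul, Complex.norm_real, Real.norm_eq_abs, abs_of_pos (r_pos j), r]
    refine one_div_le_one_div_of_le (by positivity) ?_
    have h1 : k ≤ (Nat.unpair j).2 := by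
      by_contra h2
      apply hj
      exact Finset.mem_image.2 ⟨_, Finset.mem_range.2 (not_le.1 h2), by rw [← h, Nat.pair_unpair]⟩
    have h2 : k ^ 2 ≤ j := by
      rw [← Nat.pair_unpair j]
      generalize (Nat.unpair j).1 = a at *
      generalize (Nat.unpair j).2 = c at *
      unfold Nat.pair
      split_ifs with h3 <;> nlinarith
    have : (k : ℝ) ^ 2 ≤ j := by exact_mod_cast h2
    linarith
  · simp only [Complex.ofReal_zero, zero_mul, norm_zero]; positivity

section P
variable {P : ℕ → H →L[ℂ] H} (hP : ∀ i, IsDiag b (P i) fun k => (ind i k : ℂ))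
include hP

lemma comm_A {X : H →L[ℂ] H} (h : ∀ i, P i * X = X * P i) :
    X ∈ Set.centralizer (StarAlgebra.adjoin ℂ (Set.range P) : Set (H →L[ℂ] H)) := by
  intro a ha
  have : Commute a X ∧ Commute (star a) X := by
    induction ha using StarAlgebra.adjoin_induction with
    | mem x hx =>
      obtain ⟨i, rfl⟩ := hx
      rw [(hP i).sa.star_eq]
      exact ⟨h i, h i⟩
    | algebraMap c =>
      refine ⟨Algebra.commute_algebraMap_left _ _, ?_⟩
      rw [← algebraMap_star_comm]
      exact Algebra.commute_algebraMap_left _ _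
    | add x y _ _ hx hy => rw [star_add]; exact ⟨hx.1.add_left hy.1, hx.2.add_left hy.2⟩
    | mul x y _ _ hx hy => rw [star_mul]; exact ⟨hx.1.mul_left hy.1, hy.2.mul_left hx.2⟩
    | star x _ hx => rw [star_star]; exact ⟨hx.2, hx.1⟩
  exact this.1

lemma no_finite {S : H →L[ℂ] H} (hS : S ∈ Set.centralizer
    (Set.centralizer (StarAlgebra.adjoin ℂ (Set.range P) : Set (H →L[ℂ] H))))
    (hf : FiniteDimensional ℂ (LinearMap.range (S : H →ₗ[ℂ] H))) : S = 0 := by
  have h1 : ∀ i j l, S (b (Nat.pair i j)) =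
      ⟪b (Nat.pair i l), S (b (Nat.pair i l))⟫_ℂ • b (Nat.pair i j) := by
    intro i j l
    have h2 := hS (rankOne ℂ (b (Nat.pair i j)) (b (Nat.pair i l))) (comm_A hP fun m => by
      ext x
      simp only [mul_apply_eq_comp, rankOne_apply, map_smul, (hP m).apply_b, hP m x, smul_smul]
      simp [ind, mul_comm])
    have h3 := congrArg (fun Y : H →L[ℂ] H => Y (b (Nat.pair i l))) h2
    simp only [mul_apply_eq_comp, rankOne_apply, map_smul, inner_b, if_true, one_smul] at h3
    exact h3.symm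
  have h2 : ∀ i j, S (b (Nat.pair i j)) = 0 := by
    intro i j
    by_contra hne
    have hc : ⟪b (Nat.pair i j), S (b (Nat.pair i j))⟫_ℂ ≠ 0 := by
      intro h0
      apply hne
      rw [h1 i j j, h0, zero_smul]
    have hm : ∀ l, b (Nat.pair i l) ∈ LinearMap.range (S : H →ₗ[ℂ] H) := fun l =>
      ⟨(⟪b (Nat.pair i j), S (b (Nat.pair i j))⟫_ℂ)⁻¹ • b (Nat.pair i l), by
        change S _ = _
        rw [map_smul, h1 i l j, smul_smul, inv_mul_cancel₀ hc, one_smul]⟩
    have hli : LinearIndependent ℂ fun l => b (Nat.pair i l) :=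
      b.orthonormal.linearIndependent.comp (Nat.pair i) fun a c h => (Nat.pair_eq_pair.1 h).2
    have hli' : LinearIndependent ℂ fun l => (⟨b (Nat.pair i l), hm l⟩ :
        LinearMap.range (S : H →ₗ[ℂ] H)) :=
      LinearIndependent.of_comp (LinearMap.range (S : H →ₗ[ℂ] H)).subtype hli
    exact not_finite_iff_infinite.2 (inferInstance : Infinite ℕ) hli'.finite
  apply ContinuousLinearMap.ext_on (s := Set.range b)
  · rw [Submodule.dense_iff_topologicalClosure_eq_top]; exact b.dense_span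
  · rintro _ ⟨k, rfl⟩
    have := h2 (Nat.unpair k).1 (Nat.unpair k).2
    rwa [Nat.pair_unpair] at this

lemma P_sum (x : H) : HasSum (fun i => P i x) x := by
  have h := b.hasSum_repr x
  rw [← Nat.pairEquiv.hasSum_iff] at h
  refine h.prod_fiberwise fun i => ?_
  have h2 := (P i).hasSum (b.hasSum_repr x)
  rw [← (show Function.Injective (Nat.pair i) from fun a c h => (Nat.pair_eq_pair.1 h).2).hasSum_iff]
    at h2
  · convert h2 using 2 with j
    simp [(hP i).apply_b, ind, Nat.pairEquiv]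
  · intro k hk
    have : (Nat.unpair k).1 ≠ i := by
      intro e
      apply hk
      exact ⟨(Nat.unpair k).2, by rw [← e, Nat.pair_unpair]⟩
    simp [(hP i).apply_b, ind, this]

end P

end Pool.Agent.H.MP_9105af_an
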